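import Pool.Agent.Helper59.AN.Goals2

/-! # Packet COMB2 (2883): the forcing part for small index types -/

noncomputable section

namespace AN.PkCOMB2

open Pool.Agent.Helper97.Ku NU Cardinal

theorem exists_not_mem {X : Type} [LinearOrder X] (hO : Om1 X) {S : Set X} (hS : S.Countable) :
    ∃ x, x ∉ S := by
  by_contra hc
  push Not at hc
  have h1 : (Set.univ : Set X).Countable := hS.mono fun x _ => hc x
  exact (not_countable_iff.2 hO.unc) (Set.countable_univ_iff.1 h1)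

theorem mk_X_lt {X : Type} : #X < #(Ix X) := by
  have h1 : #X ≤ #((ℕ ⊕ X) × X × ℕ) :=
    mk_le_of_injective (f := fun x : X => ((Sum.inr x : ℕ ⊕ X), x, 0)) (by
      intro a b h
      exact (Prod.ext_iff.1 (Prod.ext_iff.1 h).2).1)
  have h2 : #((ℕ ⊕ X) × X × ℕ) < #(Ix X) := by
    show _ < #(Set ((ℕ ⊕ X) × X × ℕ))
    rw [mk_set]
    exact cantor _
  exact lt_of_le_of_lt h1 h2

theorem aleph0_lt {X : Type} (x0 : X) : ℵ₀ < #(Ix X) := by
  have h1 : #ℕ ≤ #((ℕ ⊕ X) × X × ℕ) :=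
    mk_le_of_injective (f := fun n : ℕ => ((Sum.inl n : ℕ ⊕ X), x0, n)) (by
      intro a b h
      exact (Prod.ext_iff.1 (Prod.ext_iff.1 h).2).2)
  have h2 : #((ℕ ⊕ X) × X × ℕ) < #(Ix X) := by
    show _ < #(Set ((ℕ ⊕ X) × X × ℕ))
    rw [mk_set]
    exact cantor _
  rw [mk_nat] at h1
  exact lt_of_le_of_lt h1 h2

theorem comb2 : G_LOW → G_KEY → G_SEP → G_COMB2 := by
  intro hLOW hKEY hSEP X _ hO R ι hι v
  obtain ⟨l1, l2, l3, l4⟩ := hLOW X R (Ix X)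
  obtain ⟨x0, -⟩ := exists_not_mem hO (Set.countable_empty (α := X))
  have h1 : ∀ u x, ∃ H : Set (Ix X × X), H.Countable ∧ Low R R.one H (v u x) :=
    fun u x => l4 R.one (v u x)
  choose H hHc hHl using h1
  set D : Set (Ix X) := ⋃ p : ι × X, Prod.fst '' (H p.1 p.2) with hD
  have hDlt : #D < #(Ix X) := by
    have h2 : #D ≤ #(ι × X) * ⨆ p : ι × X, #(Prod.fst '' (H p.1 p.2) : Set (Ix X)) := mk_iUnion_le _
    have h3 : (⨆ p : ι × X, #(Prod.fst '' (H p.1 p.2) : Set (Ix X))) ≤ ℵ₀ := by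
      refine ciSup_le' fun p => ?_
      have h4 : (Prod.fst '' (H p.1 p.2) : Set (Ix X)).Countable := (hHc p.1 p.2).image _
      exact le_aleph0_iff_set_countable.2 h4
    have h5 : #(ι × X) * ℵ₀ < #(Ix X) := by
      refine mul_lt_of_lt (aleph0_lt x0).le ?_ (aleph0_lt x0)
      rw [mk_prod, lift_id, lift_id]
      exact mul_lt_of_lt (aleph0_lt x0).le hι mk_X_lt
    exact lt_of_le_of_lt (h2.trans (mul_le_mul' le_rfl h3)) h5
  have hi : ∃ i, i ∉ D := by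
    by_contra hc
    push Not at hc
    have : D = Set.univ := Set.eq_univ_of_forall hc
    rw [this, mk_univ] at hDlt
    exact lt_irrefl _ hDlt
  obtain ⟨i, hi⟩ := hi
  have hup : ∀ b : ℕ → X, ∃ b' : X, (∀ n, b n < b') := by
    intro b
    have h2 : (⋃ n, Set.Iic (b n)).Countable := Set.countable_iUnion fun n => hO.cnt (b n)
    obtain ⟨b', hb'⟩ := exists_not_mem hO h2
    refine ⟨b', fun n => ?_⟩
    by_contra hc
    exact hb' (Set.mem_iUnion.2 ⟨n, not_lt.1 hc⟩)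
  refine ⟨i, {f | ∃ b, R.one ≤ b ∧ ∃ C : Set (Ix X × X), C.Countable ∧
    ∀ x, Low R b ({t | t.1 ∈ D} ∪ C) (f x)}, ?_, ?_, ?_, ?_, ?_⟩
  · obtain ⟨C, hC, hC'⟩ := l4 R.one (⊥ : RO (Cd R (Ix X)))
    exact ⟨fun _ => ⊥, R.one, le_rfl, C, hC, fun x =>
      l3 _ _ _ _ _ le_rfl Set.subset_union_right hC'⟩
  · intro u
    refine ⟨R.one, le_rfl, ∅, Set.countable_empty, fun x => ?_⟩
    refine l3 _ _ _ _ _ le_rfl ?_ (hHl u x)
    intro t ht
    refine Or.inl (Set.mem_iUnion.2 ⟨(u, x), ?_⟩)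
    exact ⟨t, ht, rfl⟩
  · rintro f ⟨b, hb, C, hC, hf⟩
    obtain ⟨b', hb'⟩ := hup fun _ => b
    exact ⟨b', hb.trans (hb' 0).le, C, hC, fun x => hKEY X R (Ix X) b b' _ _ hb (hb' 0) (hf x)⟩
  · intro c f hf
    choose b hb C hC hfl using hf
    obtain ⟨b', hb'⟩ := hup b
    have h2 : ∀ n, ∃ H : Set (Ix X × X), H.Countable ∧ Low R b' H (c n) := fun n => l4 b' (c n)
    choose H' hH' hH'l using h2
    refine ⟨b', (hb 0).trans (hb' 0).le, (⋃ n, C n) ∪ ⋃ n, H' n,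
      (Set.countable_iUnion hC).union (Set.countable_iUnion hH'), fun x => ?_⟩
    refine l1 _ _ ℕ _ fun n => l2 _ _ _ _ ?_ ?_
    · refine l3 _ _ _ _ _ le_rfl ?_ (hH'l n)
      exact fun t ht => Or.inr (Or.inr (Set.mem_iUnion.2 ⟨n, ht⟩))
    · refine l3 _ _ _ _ _ (hb' n).le ?_ (hfl n x)
      rintro t (ht | ht)
      · exact Or.inl ht
      · exact Or.inr (Or.inl (Set.mem_iUnion.2 ⟨n, ht⟩))
  · rintro f ⟨b, hb, C, hC, hf⟩
    exact hSEP X hO R (Ix X) i D C b f hi hC hb hf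

end AN.PkCOMB2
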