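import Pool.Agent.Helper59.AN.Goals
import Pool.Agent.Helper30.NU.NAT

/-! # Packet UNC (2876): the index set is uncountable -/

noncomputable section

namespace AN.PkUNC

open Pool.Agent.Helper97.Ku NU

variable {L : Type} [CompleteBooleanAlgebra L]

theorem mem_uN {X : Type} (r : X → Set ℕ) (x : X) :
    (rN (ch (r x)) : BSet L).mem (uN r) = ⊤ := by
  rw [uN, BSet.mem_mk, eq_top_iff]
  refine le_trans ?_ (le_iSup _ (Sum.inr x))
  rw [top_inf_eq, Sum.elim_inr, BSet.eq_refl]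

theorem iffV_le_bot {a b : L} (ha : a = ⊤) (hb : b = ⊥) : iffV a b = ⊥ := by
  rw [iffV, ha, hb, top_himp, bot_inf_eq]

theorem iffV_le_bot' {a b : L} (ha : a = ⊥) (hb : b = ⊤) : iffV a b = ⊥ := by
  rw [iffV, ha, hb, top_himp, inf_bot_eq]

theorem eq_bot (hRN : G_RN) {X : Type} {r : X → Set ℕ} (hr : Function.Injective r) {x x' : X}
    (h : x ≠ x') : (rN (ch (r x)) : BSet L).eq (rN (ch (r x'))) = ⊥ := by
  rw [(hRN L).2.2.1]
  have h1 : r x ≠ r x' := fun h' => h (hr h')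
  have h2 : ∃ m, ¬ (m ∈ r x ↔ m ∈ r x') := by
    by_contra hc
    push Not at hc
    exact h1 (Set.ext hc)
  obtain ⟨m, hm⟩ := h2
  rw [eq_bot_iff]
  refine le_trans (iInf_le _ m) (le_of_eq ?_)
  by_cases h3 : m ∈ r x
  · have h4 : m ∉ r x' := fun h4 => hm ⟨fun _ => h4, fun _ => h3⟩
    exact iffV_le_bot (bo_true h3) (bo_false h4)
  · have h4 : m ∈ r x' := by
      by_contra h4
      exact hm ⟨fun h => absurd h h3, fun h => absurd h h4⟩
    exact iffV_le_bot' (bo_false h3) (bo_true h4)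

theorem unc : G_RN → G_UNC := by
  intro hRN L _ hccc X hX r hr
  rw [eq_bot_iff, injV]
  refine iSup_le fun f => ?_
  rw [le_bot_iff]
  by_contra hne
  set e : L := (⨅ a : BSet L, (a.mem (uN r) ⇨ ⨆ b : BSet L, (b.mem omN ⊓
      ⨅ c : BSet L, iffV (apV f a c) (c.eq b)))) ⊓
    ⨅ a : BSet L, ⨅ a' : BSet L, ⨅ b : BSet L,
      ((a.mem (uN r) ⊓ (a'.mem (uN r) ⊓ (apV f a b ⊓ apV f a' b))) ⇨ a.eq a') with he
  have h1 : ∀ x : X, e ≤ ⨆ n : ℕ, apV f (rN (ch (r x))) (nn n) := by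
    intro x
    have h2 : e ≤ ((rN (ch (r x)) : BSet L).mem (uN r) ⇨ ⨆ b : BSet L, (b.mem omN ⊓
      ⨅ c : BSet L, iffV (apV f (rN (ch (r x))) c) (c.eq b))) := by
      rw [he]
      exact le_trans inf_le_left (iInf_le _ (rN (ch (r x))))
    rw [mem_uN, top_himp] at h2
    refine le_trans h2 (iSup_le fun b => ?_)
    rw [NU.PkNAT.mem_omN, iSup_inf_eq]
    refine iSup_le fun n => le_trans ?_ (le_iSup _ n)
    have h3 : (⨅ c : BSet L, iffV (apV f (rN (ch (r x))) c) (c.eq b)) ≤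
        ((nn n).eq b ⇨ apV f (rN (ch (r x))) (nn n)) :=
      le_trans (iInf_le _ (nn n)) inf_le_right
    rw [BSet.eq_comm' b (nn n)]
    exact le_trans (inf_le_inf_left _ h3) (by rw [inf_comm]; exact himp_inf_le)
  have h2 : ∀ x : X, ∃ n : ℕ, e ⊓ apV f (rN (ch (r x))) (nn n) ≠ ⊥ := by
    intro x
    by_contra hc
    push Not at hc
    apply hne
    rw [eq_bot_iff]
    calc e ≤ e ⊓ ⨆ n : ℕ, apV f (rN (ch (r x))) (nn n) := le_inf le_rfl (h1 x)
      _ = ⨆ n : ℕ, e ⊓ apV f (rN (ch (r x))) (nn n) := inf_iSup_eq _ _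
      _ ≤ ⊥ := iSup_le fun n => (hc n).le
  choose nf hnf using h2
  have h3 : ∀ n : ℕ, Countable {x : X // nf x = n} := by
    intro n
    refine hccc {x : X // nf x = n} (fun x => e ⊓ apV f (rN (ch (r x.1))) (nn (nf x.1)))
      (fun x => hnf x.1) ?_
    intro x x' hxx
    have hx : x.1 ≠ x'.1 := fun h => hxx (Subtype.ext h)
    rw [eq_bot_iff, ← eq_bot hRN hr hx (L := L)]
    have h4 : e ≤ (((rN (ch (r x.1)) : BSet L).mem (uN r) ⊓ ((rN (ch (r x'.1)) : BSet L).mem (uN r) ⊓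
        (apV f (rN (ch (r x.1))) (nn n) ⊓ apV f (rN (ch (r x'.1))) (nn n)))) ⇨
        (rN (ch (r x.1)) : BSet L).eq (rN (ch (r x'.1)))) := by
      rw [he]
      exact le_trans inf_le_right (le_trans (iInf_le _ (rN (ch (r x.1))))
        (le_trans (iInf_le _ (rN (ch (r x'.1)))) (iInf_le _ (nn n))))
    rw [mem_uN, mem_uN, top_inf_eq, top_inf_eq, le_himp_iff] at h4
    refine le_trans ?_ h4
    show (e ⊓ apV f (rN (ch (r x.1))) (nn (nf x.1))) ⊓ (e ⊓ apV f (rN (ch (r x'.1))) (nn (nf x'.1))) ≤ _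
    rw [x.2, x'.2]
    exact le_inf (le_trans inf_le_left inf_le_left)
      (le_inf (le_trans inf_le_left inf_le_right) (le_trans inf_le_right inf_le_right))
  have h5 : (Set.univ : Set X).Countable := by
    have h6 : (⋃ n : ℕ, {x : X | nf x = n}).Countable :=
      Set.countable_iUnion fun n => (Set.countable_coe_iff.1 (h3 n))
    refine h6.mono fun x _ => Set.mem_iUnion.2 ⟨nf x, rfl⟩
  have h7 : Countable X := Set.countable_univ_iff.1 h5
  exact (not_countable_iff.2 hX) h7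

end AN.PkUNC
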